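import Pool.Agent.X144.Np.Up
import Pool.Agent.X144.Cp.Cor

/-!
# Narrow polygons: summary
-/

set_option autoImplicit false

namespace Pool.Agent.X144.Np

open Filter Topology
open Pool.Agent.TH795.EP Pool.Agent.TH795.EP2 Pool.Agent.Y981.L2 H981

/-- the correlation length at `e^(-1/N)/μ` -/
theorem xi_N (N : ℕ) : xi (Real.exp (-(1 / (N : ℝ))) / mu) = 1 / mass (1 / N) := by
  have hmu := mu_pos
  unfold xi
  rw [div_mul_cancel₀ _ hmu.ne', Real.log_exp, neg_neg]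

theorem nar_mono {n : ℕ} (hn : 1 ≤ n) {r r' s s' : ℝ} (hr : r ≤ r') (hs : s ≤ s') :
    nar n r s ≤ nar n r' s' := by
  unfold nar
  apply div_le_div_of_nonneg_right _ (Nat.cast_nonneg _)
  have h1 : {f : ZMod (2 * n) → ℤ × ℤ | IsLoop (2 * n) f ∧ (width (2 * n) f : ℝ) ≤ r ∧
      (width (2 * n) (swp f) : ℝ) ≤ s} ⊆ {f : ZMod (2 * n) → ℤ × ℤ | IsLoop (2 * n) f ∧
      (width (2 * n) f : ℝ) ≤ r' ∧ (width (2 * n) (swp f) : ℝ) ≤ s'} :=
    fun f hf => ⟨hf.1, hf.2.1.trans hr, hf.2.2.trans hs⟩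
  exact_mod_cast Set.ncard_le_ncard h1 ((loops_finite hn).subset (fun f hf => hf.1))

theorem nar_le_nw {n : ℕ} (hn : 1 ≤ n) (r s : ℝ) : nar n r s ≤ nw n r := by
  unfold nar nw
  apply div_le_div_of_nonneg_right _ (Nat.cast_nonneg _)
  have h1 : {f : ZMod (2 * n) → ℤ × ℤ | IsLoop (2 * n) f ∧ (width (2 * n) f : ℝ) ≤ r ∧
      (width (2 * n) (swp f) : ℝ) ≤ s} ⊆ {f : ZMod (2 * n) → ℤ × ℤ | IsLoop (2 * n) f ∧
      (width (2 * n) f : ℝ) ≤ r} := fun f hf => ⟨hf.1, hf.2.1⟩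
  exact_mod_cast Set.ncard_le_ncard h1 ((loops_finite hn).subset (fun f hf => hf.1))

theorem nw_mono {n : ℕ} (hn : 1 ≤ n) {r r' : ℝ} (hr : r ≤ r') : nw n r ≤ nw n r' := by
  unfold nw
  apply div_le_div_of_nonneg_right _ (Nat.cast_nonneg _)
  have h1 : {f : ZMod (2 * n) → ℤ × ℤ | IsLoop (2 * n) f ∧ (width (2 * n) f : ℝ) ≤ r} ⊆
      {f : ZMod (2 * n) → ℤ × ℤ | IsLoop (2 * n) f ∧ (width (2 * n) f : ℝ) ≤ r'} :=
    fun f hf => ⟨hf.1, hf.2.trans hr⟩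
  exact_mod_cast Set.ncard_le_ncard h1 ((loops_finite hn).subset (fun f hf => hf.1))

/-- the proportion of the polygons with area at most `r` -/
noncomputable def sa (n : ℕ) (r : ℝ) : ℝ :=
  ({f : ZMod (2 * n) → ℤ × ℤ | IsLoop (2 * n) f ∧ (area (2 * n) f : ℝ) ≤ r}.ncard : ℝ) /
    ({f : ZMod (2 * n) → ℤ × ℤ | IsLoop (2 * n) f}.ncard : ℝ)

theorem nar_le_sa {n : ℕ} (hn : 1 ≤ n) {r s t : ℝ} (hr : 0 ≤ r) (h : r * s ≤ t) :
    nar n r s ≤ sa n t := by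
  unfold nar sa
  apply div_le_div_of_nonneg_right _ (Nat.cast_nonneg _)
  have h1 : {f : ZMod (2 * n) → ℤ × ℤ | IsLoop (2 * n) f ∧ (width (2 * n) f : ℝ) ≤ r ∧
      (width (2 * n) (swp f) : ℝ) ≤ s} ⊆ {f : ZMod (2 * n) → ℤ × ℤ | IsLoop (2 * n) f ∧
      (area (2 * n) f : ℝ) ≤ t} := by
    rintro f ⟨h2, h3, h4⟩
    refine ⟨h2, ?_⟩
    have h5 := area_le_wh hn h2
    have h6 : (area (2 * n) f : ℝ) ≤ (width (2 * n) f : ℝ) * (width (2 * n) (swp f) : ℝ) := by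
      exact_mod_cast h5
    refine h6.trans (le_trans ?_ h)
    exact mul_le_mul h3 h4 (by positivity) hr
  exact_mod_cast Set.ncard_le_ncard h1 ((loops_finite hn).subset (fun f hf => hf.1))

/-- **Narrow polygons.** -/
theorem poly_xi : ∃ K : ℝ, 0 < K ∧ ∀ N n : ℕ, 2 ≤ N → N ≤ n →
    Real.exp (-(K * ((n : ℝ) / N * Real.log N ^ 2))) ≤
      nar n (K * (xi (Real.exp (-(1 / (N : ℝ))) / mu) * Real.log N ^ 2))
        (K * ((n : ℝ) / N * xi (Real.exp (-(1 / (N : ℝ))) / mu) * Real.log N ^ 2)) := by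
  obtain ⟨C, K, hC, hK, h⟩ := poly
  refine ⟨C + K, by positivity, ?_⟩
  intro N n hN hn
  have hNp : (0 : ℝ) < N := by exact_mod_cast (by omega : 0 < N)
  have hmass : 0 < Y981.L2.mass (1 / N) := Y981.L2.mass_pos (by positivity)
  rw [xi_N]
  have h1 := h N hN n hn
  have h2 : 0 ≤ (n : ℝ) / N * Real.log N ^ 2 := by positivity
  refine le_trans (Real.exp_le_exp.2 ?_) (h1.trans (nar_mono (by omega) ?_ ?_))
  · nlinarith
  · have e : Real.log (N : ℝ) ^ 2 / Y981.L2.mass (1 / N) =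
      1 / Y981.L2.mass (1 / N) * Real.log N ^ 2 := by ring
    rw [e]
    apply mul_le_mul_of_nonneg_right _ (by positivity)
    linarith
  · have e : (n : ℝ) / N * (Real.log (N : ℝ) ^ 2 / Y981.L2.mass (1 / N)) =
      (n : ℝ) / N * (1 / Y981.L2.mass (1 / N)) * Real.log N ^ 2 := by ring
    rw [e]
    apply mul_le_mul_of_nonneg_right _ (by positivity)
    linarith

theorem width_low {θ : ℝ} (h0 : 0 < θ) (hM : MassLow θ) {a : ℝ} (ha : 0 < a) (haθ : a < θ)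
    {ε : ℝ} (hε : 0 < ε) : ∀ᶠ n : ℕ in atTop,
      Real.exp (-(n : ℝ) ^ (1 - a / θ + ε)) ≤ nw n ((n : ℝ) ^ a) := by
  obtain ⟨C, K, hC, hK, h⟩ := poly
  filter_upwards [choose_width h0 hM ha haθ hε hC hK] with n hn
  obtain ⟨N, h1, h2, h3, h4⟩ := hn
  exact (Real.exp_le_exp.2 (by linarith)).trans ((h N h1 n h2).trans
    ((nar_le_nw (by omega) _ _).trans (nw_mono (by omega) h3)))

theorem area_low {θ : ℝ} (h0 : 1 / 2 < θ) (hM : MassLow θ) {b : ℝ} (hb : 1 < b) (hbθ : b < 2 * θ)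
    {ε : ℝ} (hε : 0 < ε) : ∀ᶠ n : ℕ in atTop,
      Real.exp (-(n : ℝ) ^ ((2 * θ - b) / (2 * θ - 1) + ε)) ≤ sa n ((n : ℝ) ^ b) := by
  obtain ⟨C, K, hC, hK, h⟩ := poly
  filter_upwards [choose_area h0 hM hb hbθ hε hC hK] with n hn
  obtain ⟨N, h1, h2, h3, h4⟩ := hn
  have hNp : (0 : ℝ) < N := by exact_mod_cast (by omega : 0 < N)
  have hmass : 0 < Y981.L2.mass (1 / N) := Y981.L2.mass_pos (by positivity)
  exact (Real.exp_le_exp.2 (by linarith)).trans ((h N h1 n h2).trans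
    (nar_le_sa (by omega) (by positivity) h3))

end Pool.Agent.X144.Np
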