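import Pool.Agent.X144.Fi.Cost
import Pool.Agent.Y981.L2.Area5

/-!
# Narrow arches
-/

set_option autoImplicit false

namespace Pool.Agent.X144.Np

open Pool.Agent.TH795.EP Pool.Agent.TH795.EP2 Pool.Agent.Y981.L2 H981 Finset

theorem path_ng (w : List St) (k : ℕ) : path (ng w) k = ((path w k).1, -(path w k).2) := by
  have h1 := path_ng_snd w k
  have h2 : (path (ng w) k).1 = (path w k).1 := by
    unfold path ng
    simp only
    rw [← List.map_take]
    exact dx_ng _
  exact Prod.ext h2 h1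

theorem path_sg (w : List St) (k : ℕ) : path (sg w) k = (-(path w k).1, (path w k).2) := by
  have h1 := path_sg_snd w k
  have h2 : (path (sg w) k).1 = -(path w k).1 := by
    unfold path sg
    simp only
    rw [← List.map_take]
    exact dx_sg _
  exact Prod.ext h2 h1

theorem path_rev (w : List St) {k : ℕ} (hk : k ≤ w.length) :
    path w.reverse k = (dx w - (path w (w.length - k)).1, dy w - (path w (w.length - k)).2) := by
  have e : w.reverse.take k = (w.drop (w.length - k)).reverse := by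
    rw [List.reverse_drop]
    congr 1
    omega
  have h1 : dx w = dx (w.take (w.length - k)) + dx (w.drop (w.length - k)) := by
    rw [← dx_append, List.take_append_drop]
  have h2 : dy w = dy (w.take (w.length - k)) + dy (w.drop (w.length - k)) := by
    rw [← dy_append, List.take_append_drop]
  unfold path
  rw [e, dx_reverse, dy_reverse]
  simp only [Prod.mk.injEq]
  constructor <;> omega

/-- the arch traversed backwards and reflected -/
def rm (t : List St) : List St := (ng t).reverse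

theorem rm_rm (t : List St) : rm (rm t) = t := by
  unfold rm
  rw [ng_reverse, ng_ng, List.reverse_reverse]

theorem length_rm (t : List St) : (rm t).length = t.length := by
  unfold rm ng
  simp

theorem dx_rm (t : List St) : dx (rm t) = dx t := by unfold rm; simp
theorem dy_rm (t : List St) : dy (rm t) = -dy t := by unfold rm; simp

theorem path_rm (t : List St) {k : ℕ} (hk : k ≤ t.length) :
    path (rm t) k = (dx t - (path t (t.length - k)).1, (path t (t.length - k)).2 - dy t) := by
  unfold rm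
  have hl : (ng t).length = t.length := by unfold ng; simp
  rw [path_rev _ (by rw [hl]; exact hk), hl, path_ng]
  simp only [dx_ng, dy_ng, Prod.mk.injEq]
  constructor
  · trivial
  · ring

theorem exists_rm (t : List St) (k : ℕ) : ∃ j,
    path (rm t) k = (dx t - (path t j).1, (path t j).2 - dy t) := by
  rcases le_or_gt k t.length with h | h
  · exact ⟨_, path_rm t h⟩
  · rw [path_ge (by rw [length_rm]; exact h.le), length_rm]
    exact ⟨_, path_rm t le_rfl⟩

/-- the reflected arch in the right direction -/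
def op (s : St) (t : List St) : List St := if s = St.E then rm t else sg t

theorem op_op (s : St) (t : List St) : op s (op s t) = t := by
  unfold op
  split_ifs
  · exact rm_rm t
  · exact sg_sg t

theorem length_op (s : St) (t : List St) : (op s t).length = t.length := by
  unfold op
  split_ifs
  · exact length_rm t
  · simp

theorem saw_op {s : St} {t : List St} (h : Saw t) : Saw (op s t) := by
  unfold op
  split_ifs
  · exact h.ng.reverse
  · exact h.sg

theorem dx_op {s : St} {t : List St} (hs : s = St.E ∨ s = St.W) (h : dx t = 1) :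
    dx (op s t) = s.x := by
  rcases hs with rfl | rfl
  · simp [op, dx_rm, h]
  · simp [op, h]

theorem dy_op {s : St} {t : List St} (hs : s = St.E ∨ s = St.W) (h : dy t = 0) :
    dy (op s t) = s.y := by
  rcases hs with rfl | rfl
  · simp [op, dy_rm, h]
  · simp [op, h]

/-- the shift of the reflection -/
def sh (s : St) : ℤ := if s = St.E then 1 else 0

theorem exists_op (s : St) {t : List St} (h1 : dx t = 1) (h2 : dy t = 0) (k : ℕ) : ∃ j,
    path (op s t) k = (sh s - (path t j).1, (path t j).2) := by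
  unfold op sh
  split_ifs
  · obtain ⟨j, hj⟩ := exists_rm t k
    exact ⟨j, by rw [hj, h1, h2, sub_zero]⟩
  · exact ⟨k, by rw [path_sg, zero_sub]⟩

theorem op_neg (s : St) {t : List St} (ht : Arch t) (k : ℕ) : (path (op s t) k).2 ≤ 0 := by
  obtain ⟨j, hj⟩ := exists_op s ht.2.1 ht.2.2.1 k
  rw [hj]
  exact ht.2.2.2 j

/-- range of the sites of a word -/
def Rg (lo hi b : ℤ) (w : List St) : Prop :=
  ∀ k, -lo ≤ (path w k).1 ∧ (path w k).1 ≤ hi ∧ -b ≤ (path w k).2

theorem ins_arch {w t : List St} {i : ℕ} (hw : Arch w) (hi : i < w.length)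
    (hs : w[i] = St.E ∨ w[i] = St.W) (hmin : ∀ k, (path w i).2 ≤ (path w k).2) (ht : Arch t) :
    Arch (ins w i (op w[i] t)) := by
  have hx := dx_op hs ht.2.1
  have hy := dy_op hs ht.2.2.1
  have hd := disp_ins hi hx hy
  refine ⟨saw_ins hw.1 hi (saw_op ht.1) hx hy hmin (op_neg _ ht), by rw [hd.1, hw.2.1],
    by rw [hd.2, hw.2.2.1], ?_⟩
  exact lo_ins hi hx hy hw.2.2.2 (op_neg _ ht)

theorem ins_rg {w t : List St} {i : ℕ} (hi : i < w.length)
    (hs : w[i] = St.E ∨ w[i] = St.W) (ht : Arch t) {T lo hi' b : ℤ} (hb : 0 ≤ b)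
    (hT : Rg T T T w) (hR : Rg lo hi' b t) (hlo : T ≤ lo) (hhi : T ≤ hi')
    (hX : hi' = lo + (path w i).1 + sh w[i]) :
    Rg lo hi' (b + T + 1) (ins w i (op w[i] t)) := by
  have hx := dx_op hs ht.2.1
  have hy := dy_op hs ht.2.2.1
  have key : ∀ k, k ≤ w.length + (op w[i] t).length + 1 →
      -lo ≤ (path (ins w i (op w[i] t)) k).1 ∧ (path (ins w i (op w[i] t)) k).1 ≤ hi' ∧
      -(b + T + 1) ≤ (path (ins w i (op w[i] t)) k).2 := by
    intro k hk
    by_cases h1 : k ≤ i
    · rw [path_ins_left hi _ h1]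
      have := hT k
      omega
    · by_cases h2 : k ≤ i + ((op w[i] t).length + 1)
      · obtain ⟨l, rfl⟩ : ∃ l, k = i + (l + 1) := ⟨k - i - 1, by omega⟩
        rw [path_ins_mid hi _ (by omega)]
        obtain ⟨j, hj⟩ := exists_op w[i] ht.2.1 ht.2.2.1 l
        rw [hj]
        have h3 := hT i
        have h4 := hR j
        simp only
        omega
      · obtain ⟨l, rfl⟩ : ∃ l, k = i + ((op w[i] t).length + (l + 1) + 1) :=
          ⟨k - i - (op w[i] t).length - 2, by omega⟩
        rw [path_ins_right hi hx hy]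
        have := hT (i + 1 + l)
        omega
  intro k
  rcases le_or_gt k (w.length + (op w[i] t).length + 1) with h | h
  · exact key k h
  · rw [path_ge (by rw [length_ins hi]; omega)]
    exact key _ (by rw [length_ins hi])

/-- insertion is injective -/
theorem ins_inj {w w' a a' : List St} {i : ℕ} (hi : i < w.length) (hi' : i < w'.length)
    (hs : w[i] = w'[i]) (ha : a.length = a'.length) (h : ins w i a = ins w' i a') :
    w = w' ∧ a = a' := by
  unfold ins at h
  have l1 : (w.take i).length = (w'.take i).length := by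
    rw [List.length_take, List.length_take]; omega
  obtain ⟨h1, h2⟩ := List.append_inj h l1
  rw [List.cons.injEq] at h2
  obtain ⟨h3, h4⟩ := List.append_inj h2.2 ha
  rw [List.cons.injEq] at h4
  refine ⟨?_, h3⟩
  calc w = w.take i ++ (w[i] :: w.drop (i + 1)) := by
        rw [← List.drop_eq_getElem_cons hi, List.take_append_drop]
    _ = w'.take i ++ (w'[i] :: w'.drop (i + 1)) := by rw [h1, hs, h4.2]
    _ = w' := by rw [← List.drop_eq_getElem_cons hi', List.take_append_drop]

/-- small arches -/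
noncomputable def A (m : ℕ) (T : ℤ) : Finset (List St) :=
  fs (fun w => Arch w ∧ Rg T T T w) (2 * m - 1)

/-- small arches with a given edge in the lowest row -/
noncomputable def P (m : ℕ) (T : ℤ) (p : ℕ × ℤ × St) : Finset (List St) :=
  fs (fun w => (Arch w ∧ Rg T T T w) ∧ ∃ hi : p.1 < w.length, w[p.1] = p.2.2 ∧
    (path w p.1).1 = p.2.1 ∧ ∀ k, (path w p.1).2 ≤ (path w k).2) (2 * m - 1)

/-- arches in a box -/
noncomputable def V (n : ℕ) (lo hi b : ℤ) : Finset (List St) :=
  fs (fun w => Arch w ∧ Rg lo hi b w) (2 * n - 1)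

theorem step {m n : ℕ} (hm : 1 ≤ m) (hn : 1 ≤ n) {T lo hi b : ℤ} (hb : 0 ≤ b) {p : ℕ × ℤ × St}
    (hs : p.2.2 = St.E ∨ p.2.2 = St.W) (hlo : T ≤ lo) (hhi : T ≤ hi)
    (hX : hi = lo + p.2.1 + sh p.2.2) :
    (P m T p).card * (V n lo hi b).card ≤ (V (n + m) lo hi (b + T + 1)).card := by
  rw [← Finset.card_product]
  apply Finset.card_le_card_of_injOn (fun q : List St × List St => ins q.1 p.1 (op p.2.2 q.2))
  · rintro ⟨w, t⟩ h
    rw [Finset.mem_coe, Finset.mem_product] at h
    obtain ⟨h1, h2⟩ := h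
    simp only at h1 h2
    unfold P at h1
    unfold V at h2
    rw [mem_fs] at h1 h2
    obtain ⟨⟨⟨h3, h4⟩, h5, h6, h7, h8⟩, h9⟩ := h1
    obtain ⟨⟨h10, h11⟩, h12⟩ := h2
    simp only
    rw [← h6]
    rw [← h6] at hs
    rw [Finset.mem_coe]
    unfold V
    rw [mem_fs]
    refine ⟨⟨ins_arch h3 h5 hs h8 h10, ins_rg h5 hs h10 hb h4 h11 hlo hhi ?_⟩, ?_⟩
    · rw [h7, h6]
      exact hX
    · rw [length_ins h5, length_op, h9, h12]
      omega
  · rintro ⟨w, t⟩ h ⟨w', t'⟩ h' he
    rw [Finset.mem_coe, Finset.mem_product] at h h'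
    obtain ⟨h1, h2⟩ := h
    obtain ⟨h1', h2'⟩ := h'
    simp only at h1 h2 h1' h2' he
    unfold P at h1 h1'
    unfold V at h2 h2'
    rw [mem_fs] at h1 h2 h1' h2'
    obtain ⟨⟨-, h5, h6, -, -⟩, -⟩ := h1
    obtain ⟨⟨-, h5', h6', -, -⟩, -⟩ := h1'
    obtain ⟨e1, e2⟩ := ins_inj h5 h5' (h6.trans h6'.symm)
      (by rw [length_op, length_op, h2.2, h2'.2]) he
    have e3 := congrArg (op p.2.2) e2
    rw [op_op, op_op] at e3
    rw [e1, e3]

/-- pigeonhole -/
theorem exists_P {m : ℕ} (hm : 1 ≤ m) (T : ℤ) : ∃ p : ℕ × ℤ × St,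
    (p.2.2 = St.E ∨ p.2.2 = St.W) ∧ |p.2.1| ≤ 2 * m ∧
    (A m T).card ≤ (4 * m * (4 * m + 1)) * (P m T p).card := by
  classical
  obtain ⟨I, hI⟩ : ∃ I : Finset (ℕ × ℤ × St), I =
      Finset.range (2 * m) ×ˢ (Finset.Icc (-(2 * m : ℤ)) (2 * m) ×ˢ ({St.E, St.W} : Finset St)) :=
    ⟨_, rfl⟩
  have hIne : I.Nonempty := by
    refine ⟨(0, 0, St.E), ?_⟩
    rw [hI, Finset.mem_product, Finset.mem_product, Finset.mem_range, Finset.mem_Icc]
    simp only [Finset.mem_insert, true_or, and_true]
    omega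
  have hIc : I.card ≤ 4 * m * (4 * m + 1) := by
    rw [hI, Finset.card_product, Finset.card_product, Finset.card_range, Int.card_Icc]
    have h1 : ((2 * m : ℤ) + 1 - -(2 * m : ℤ)).toNat = 4 * m + 1 := by omega
    have h2 : ({St.E, St.W} : Finset St).card ≤ 2 := Finset.card_le_two
    rw [h1]
    calc 2 * m * ((4 * m + 1) * ({St.E, St.W} : Finset St).card)
        ≤ 2 * m * ((4 * m + 1) * 2) := by gcongr
      _ = _ := by ring
  have hsub : A m T ⊆ I.biUnion (fun p => P m T p) := by
    intro w hw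
    have hw' := hw
    unfold A at hw
    rw [mem_fs] at hw
    obtain ⟨⟨h1, h2⟩, h3⟩ := hw
    obtain ⟨i, hi, hs, hmin⟩ := lo_bot h1.1 (by omega) h1.2.2.2 h1.2.2.1
    rw [Finset.mem_biUnion]
    refine ⟨(i, (path w i).1, w[i]), ?_, ?_⟩
    · rw [hI, Finset.mem_product, Finset.mem_product, Finset.mem_range, Finset.mem_Icc]
      have h4 := abs_add_abs_le (w.take i)
      have h5 := abs_nonneg (dy (w.take i))
      have h6 : (path w i).1 = dx (w.take i) := rfl
      have h7 : (w.take i).length ≤ w.length := by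
        rw [List.length_take]; exact min_le_right _ _
      have h8 : |(path w i).1| ≤ 2 * m := by rw [h6]; omega
      rw [abs_le] at h8
      refine ⟨by simp only; omega, ⟨h8, ?_⟩⟩
      simp only [Finset.mem_insert, Finset.mem_singleton]
      exact hs
    · unfold P
      rw [mem_fs]
      exact ⟨⟨⟨h1, h2⟩, hi, rfl, rfl, hmin⟩, h3⟩
  obtain ⟨p, hp, hmax⟩ := Finset.exists_max_image I (fun p => (P m T p).card) hIne
  refine ⟨p, ?_, ?_, ?_⟩
  · rw [hI, Finset.mem_product, Finset.mem_product] at hp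
    have := hp.2.2
    simp only [Finset.mem_insert, Finset.mem_singleton] at this
    exact this
  · rw [hI, Finset.mem_product, Finset.mem_product, Finset.mem_Icc] at hp
    rw [abs_le]
    exact hp.2.1
  · calc (A m T).card ≤ (I.biUnion (fun p => P m T p)).card := Finset.card_le_card hsub
      _ ≤ ∑ p ∈ I, (P m T p).card := Finset.card_biUnion_le
      _ ≤ ∑ _p' ∈ I, (P m T p).card := Finset.sum_le_sum (fun p' hp' => hmax p' hp')
      _ = I.card * (P m T p).card := by rw [Finset.sum_const, smul_eq_mul]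
      _ ≤ _ := Nat.mul_le_mul_right _ hIc

/-- **Narrow arches.** -/
theorem tower {N : ℕ} (hN : 1 ≤ N) {T : ℤ} {p : ℕ × ℤ × St}
    (hs : p.2.2 = St.E ∨ p.2.2 = St.W) (hne : (P N T p).Nonempty) :
    ∃ lo hi : ℤ, T ≤ lo ∧ T ≤ hi ∧ lo + hi ≤ 3 * T + 1 ∧ ∀ k m' : ℕ, 1 ≤ m' →
      (P N T p).card ^ k * (A m' T).card ≤ (V (m' + k * N) lo hi ((k + 1) * (T + 1))).card := by
  obtain ⟨w, hw⟩ := hne
  unfold P at hw
  rw [mem_fs] at hw
  obtain ⟨⟨⟨h3, h4⟩, h5, h6, h7, h8⟩, h9⟩ := hw
  have h10 := h4 p.1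
  have h11 := h4 0
  have h12 : path w 0 = (0, 0) := by simp [path]
  rw [h12] at h11
  simp only at h11
  rw [h7] at h10
  have hsh : sh p.2.2 = 0 ∨ sh p.2.2 = 1 := by
    unfold sh
    split_ifs
    · right; rfl
    · left; rfl
  obtain ⟨lo, hlo⟩ : ∃ lo, lo = T + max (-(p.2.1 + sh p.2.2)) 0 := ⟨_, rfl⟩
  obtain ⟨hi, hhi⟩ : ∃ hi, hi = T + max (p.2.1 + sh p.2.2) 0 := ⟨_, rfl⟩
  refine ⟨lo, hi, by omega, by omega, by omega, ?_⟩
  intro k m' hm'
  induction k with
  | zero =>
    rw [pow_zero, one_mul, zero_mul, add_zero]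
    apply Finset.card_le_card
    intro v hv
    unfold A at hv
    unfold V
    rw [mem_fs] at hv ⊢
    refine ⟨⟨hv.1.1, ?_⟩, hv.2⟩
    intro j
    have := hv.1.2 j
    push_cast
    omega
  | succ k ih =>
    have h13 : (0 : ℤ) ≤ (k + 1) * (T + 1) := mul_nonneg (by positivity) (by omega)
    have h14 := step (m := N) (n := m' + k * N) (T := T) (lo := lo) (hi := hi) (p := p)
      hN (by omega) h13 hs (by omega) (by omega) (by omega)
    have e1 : m' + k * N + N = m' + (k + 1) * N := by ring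
    have e2 : ((k : ℤ) + 1) * (T + 1) + T + 1 = (((k + 1 : ℕ) : ℤ) + 1) * (T + 1) := by
      push_cast
      ring
    rw [e1, e2] at h14
    calc (P N T p).card ^ (k + 1) * (A m' T).card
        = (P N T p).card * ((P N T p).card ^ k * (A m' T).card) := by ring
      _ ≤ (P N T p).card * (V (m' + k * N) lo hi ((k + 1) * (T + 1))).card :=
          Nat.mul_le_mul_left _ ih
      _ ≤ _ := h14

theorem width_le_of {n : ℕ} {f : ZMod (2 * n) → ℤ × ℤ} {a b : ℤ}
    (h : ∀ i, a ≤ (f i).1 ∧ (f i).1 ≤ b) : (width (2 * n) f : ℤ) ≤ b - a := by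
  have h0 := h 0
  have : width (2 * n) f ≤ (b - a).toNat := by
    unfold width
    refine csSup_le (s := {w : ℕ | ∃ i j, w = ((f i).1 - (f j).1).natAbs}) ⟨_, 0, 0, rfl⟩ ?_
    rintro w ⟨i, j, rfl⟩
    have h1 := h i
    have h2 := h j
    omega
  omega

/-- arches give polygons -/
theorem V_loops {n : ℕ} (hn : 1 ≤ n) {lo hi b : ℤ} : (V n lo hi b).card ≤
    {f : ZMod (2 * n) → ℤ × ℤ | IsLoop (2 * n) f ∧ (width (2 * n) f : ℤ) ≤ lo + hi ∧
      (width (2 * n) (swp f) : ℤ) ≤ b}.ncard := by
  rw [← Set.ncard_coe_finset]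
  have hfin : {f : ZMod (2 * n) → ℤ × ℤ | IsLoop (2 * n) f ∧ (width (2 * n) f : ℤ) ≤ lo + hi ∧
      (width (2 * n) (swp f) : ℤ) ≤ b}.Finite := (loops_finite hn).subset (fun f hf => hf.1)
  apply Set.ncard_le_ncard_of_injOn (fun w : List St => fun i : ZMod (2 * n) => path w i.val)
    _ _ hfin
  · intro w hw
    rw [Finset.mem_coe] at hw
    unfold V at hw
    rw [mem_fs] at hw
    obtain ⟨⟨h1, h2⟩, h3⟩ := hw
    refine ⟨loop_close (by omega) (by omega) h1.1 (by rw [h1.2.1, h1.2.2.1]; simp), ?_, ?_⟩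
    · have := width_le_of (f := fun i : ZMod (2 * n) => path w i.val) (a := -lo) (b := hi)
        (fun i => ⟨(h2 i.val).1, (h2 i.val).2.1⟩)
      omega
    · have := width_le_of (f := swp (fun i : ZMod (2 * n) => path w i.val)) (a := -b) (b := 0)
        (fun i => ⟨(h2 i.val).2.2, h1.2.2.2 i.val⟩)
      omega
  · intro w hw w' hw' he
    rw [Finset.mem_coe] at hw hw'
    unfold V at hw hw'
    rw [mem_fs] at hw hw'
    have hl : w.length = 2 * n - 1 := hw.2
    have hl' : w'.length = 2 * n - 1 := hw'.2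
    apply path_injective hl hl'
    intro i
    have h1 := congrFun he ((i : ℕ) : ZMod (2 * n))
    simp only at h1
    have h2 : (((i : ℕ) : ZMod (2 * n))).val = i := ZMod.val_natCast_of_lt (by
      have := i.2
      omega)
    rwa [h2] at h1

end Pool.Agent.X144.Np
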