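import Pool.Agent.X144.Np.Num
import Pool.Agent.Y981.L2.Xi

/-!
# Narrow polygons: probabilities and exponents
-/

set_option autoImplicit false

namespace Pool.Agent.X144.Np

open Filter Topology
open Pool.Agent.TH795.EP Pool.Agent.TH795.EP2 Pool.Agent.Y981.L2 H981

/-- the proportion of the polygons with width at most `r` and height at most `s` -/
noncomputable def nar (n : ℕ) (r s : ℝ) : ℝ :=
  ({f : ZMod (2 * n) → ℤ × ℤ | IsLoop (2 * n) f ∧ (width (2 * n) f : ℝ) ≤ r ∧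
    (width (2 * n) (swp f) : ℝ) ≤ s}.ncard : ℝ) /
    ({f : ZMod (2 * n) → ℤ × ℤ | IsLoop (2 * n) f}.ncard : ℝ)

theorem poly : ∃ C K : ℝ, 0 < C ∧ 0 < K ∧ ∀ N : ℕ, 2 ≤ N → ∀ n : ℕ, N ≤ n →
    Real.exp (-(K * (n / N * Real.log N ^ 2))) ≤
      nar n (C * (Real.log N ^ 2 / mass (1 / N))) (C * (n / N * (Real.log N ^ 2 / mass (1 / N)))) := by
  obtain ⟨C, K, hC, hK, h⟩ := count
  obtain ⟨K2, hK2, hln⟩ := ln_le
  obtain ⟨D, hD⟩ : ∃ D, D = Y981.L2.mass 1 := ⟨_, rfl⟩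
  have hD0 : 0 < D := by rw [hD]; exact Y981.L2.mass_pos one_pos
  refine ⟨3 * (C + 5 * D), K + 12 * K2 + 1, by positivity, by positivity, ?_⟩
  intro N hN n hn
  have hNr : (2 : ℝ) ≤ N := by exact_mod_cast hN
  have hNp : (0 : ℝ) < N := by linarith
  have hmu := mu_pos
  have hmass : 0 < Y981.L2.mass (1 / N) := Y981.L2.mass_pos (by positivity)
  have hmassD : Y981.L2.mass (1 / N) ≤ D := by
    rw [hD]
    apply Y981.L2.mass_mono (by positivity)
    rw [div_le_one hNp]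
    linarith
  have hblob := X144.Fi.log_blob hN hn
  obtain ⟨w, hw⟩ : ∃ w, w = Real.log (N : ℝ) ^ 2 := ⟨_, rfl⟩
  have hl2 := Real.log_two_gt_d9
  have hlN : Real.log 2 ≤ Real.log N := Real.log_le_log (by norm_num) hNr
  have hw0 : 12 / 25 ≤ w := by rw [hw]; nlinarith
  have h' := h N hN
  rw [← hw] at hblob h' ⊢
  obtain ⟨Q, hQ⟩ : ∃ Q, Q = w / Y981.L2.mass (1 / N) := ⟨_, rfl⟩
  rw [← hQ] at h' ⊢
  have hQ2 : 2 ≤ 5 * D * Q := by
    rw [hQ, mul_div_assoc', le_div_iff₀ hmass]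
    nlinarith
  have hQ0 : 0 ≤ Q := by rw [hQ]; positivity
  obtain ⟨T, hT⟩ : ∃ T : ℤ, T = ⌈C * Q⌉ := ⟨_, rfl⟩
  have hT1 : C * Q ≤ T := by rw [hT]; exact Int.le_ceil _
  have hT2 : (T : ℝ) < C * Q + 1 := by rw [hT]; exact Int.ceil_lt_add_one _
  have hT3 : (T : ℝ) + 1 ≤ (C + 5 * D) * Q := by linarith
  have hT0 : (0 : ℝ) ≤ T := le_trans (by positivity) hT1
  obtain ⟨lo, hi, b, h1, h2, h3⟩ := h' T hT1 n hn
  have hn2 : 2 ≤ n := hN.trans hn
  obtain ⟨hl0, hl1⟩ := hln n hn2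
  have h4 := V_loops (show 1 ≤ n by omega) (lo := lo) (hi := hi) (b := b)
  have h5 : {f : ZMod (2 * n) → ℤ × ℤ | IsLoop (2 * n) f ∧ (width (2 * n) f : ℤ) ≤ lo + hi ∧
      (width (2 * n) (swp f) : ℤ) ≤ b} ⊆
      {f : ZMod (2 * n) → ℤ × ℤ | IsLoop (2 * n) f ∧
        (width (2 * n) f : ℝ) ≤ 3 * (C + 5 * D) * Q ∧
        (width (2 * n) (swp f) : ℝ) ≤ 3 * (C + 5 * D) * (n / N * Q)} := by
    rintro f ⟨h6, h7, h8⟩
    refine ⟨h6, ?_, ?_⟩
    · have h9 : (width (2 * n) f : ℤ) ≤ 3 * T + 1 := by omega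
      have h10 : (width (2 * n) f : ℝ) ≤ 3 * T + 1 := by exact_mod_cast h9
      linarith
    · have h10 : (width (2 * n) (swp f) : ℝ) ≤ b := by exact_mod_cast h8
      have h11 : (n : ℝ) / N * (T + 1) ≤ n / N * ((C + 5 * D) * Q) :=
        mul_le_mul_of_nonneg_left hT3 (by positivity)
      have h12 : 0 ≤ (n : ℝ) / N * ((C + 5 * D) * Q) := by positivity
      linarith
  have h6 := Set.ncard_le_ncard h5 ((loops_finite (show 1 ≤ n by omega)).subset (fun f hf => hf.1))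
  have h7 : ((V n lo hi b).card : ℝ) ≤ (({f : ZMod (2 * n) → ℤ × ℤ | IsLoop (2 * n) f ∧
        (width (2 * n) f : ℝ) ≤ 3 * (C + 5 * D) * Q ∧
        (width (2 * n) (swp f) : ℝ) ≤ 3 * (C + 5 * D) * (n / N * Q)}.ncard : ℕ) : ℝ) := by
    exact_mod_cast h4.trans h6
  have hqe : q n K2 = Real.exp (K2 * Real.log n ^ 2) := rfl
  unfold nar
  change _ ≤ _ / (ln n : ℝ)
  rw [le_div_iff₀ hl0]
  refine le_trans ?_ (h3.trans h7)
  calc Real.exp (-((K + 12 * K2 + 1) * (n / N * w))) * (ln n : ℝ)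
      ≤ Real.exp (-((K + 12 * K2 + 1) * (n / N * w))) * (mu ^ (2 * n) * q n K2) :=
        mul_le_mul_of_nonneg_left hl1 (Real.exp_pos _).le
    _ = mu ^ (2 * n) * Real.exp (-((K + 12 * K2 + 1) * (n / N * w)) + K2 * Real.log n ^ 2) := by
        rw [Real.exp_add, hqe]
        ring
    _ ≤ _ := by
        apply mul_le_mul_of_nonneg_left _ (by positivity)
        apply Real.exp_le_exp.2
        have h8 : 0 ≤ (n : ℝ) / N * w := by positivity
        nlinarith [mul_le_mul_of_nonneg_left hblob hK2]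

theorem ev_logs (C : ℝ) {η : ℝ} (hη : 0 < η) :
    ∀ᶠ n : ℕ in atTop, C * Real.log n ^ 2 ≤ (n : ℝ) ^ η := by
  filter_upwards [ev_log C 0 hη] with n hn
  linarith

theorem gen_N {θ : ℝ} (h0 : 0 < θ) (hM : MassLow θ) {β : ℝ} (hβ : 0 < β) (hβ1 : β < 1) {η : ℝ}
    (hη : 0 < η) (N0 : ℕ) {C : ℝ} (hC : 0 ≤ C) :
    ∀ᶠ n : ℕ in atTop, ∃ N : ℕ, N0 ≤ N ∧ N ≤ n ∧ C * Real.log N ^ 2 ≤ (n : ℝ) ^ η ∧
      1 / mass (1 / N) ≤ (n : ℝ) ^ (β * θ + η) ∧ (n : ℝ) / N ≤ (n : ℝ) ^ (1 - β + η) := by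
  have htend : Tendsto (fun n : ℕ => ⌊(n : ℝ) ^ β⌋₊) atTop atTop :=
    tendsto_nat_floor_atTop.comp ((tendsto_rpow_atTop hβ).comp tendsto_natCast_atTop_atTop)
  have htend' : Tendsto (fun n : ℕ => 1 / ((⌊(n : ℝ) ^ β⌋₊ : ℕ) : ℝ)) atTop (𝓝[>] 0) := by
    rw [tendsto_nhdsWithin_iff]
    constructor
    · have := (tendsto_one_div_atTop_nhds_zero_nat (𝕜 := ℝ)).comp htend
      exact this
    · filter_upwards [htend.eventually_ge_atTop 1] with n hn
      have : (0 : ℝ) < (⌊(n : ℝ) ^ β⌋₊ : ℕ) := by exact_mod_cast (by omega : 0 < ⌊(n : ℝ) ^ β⌋₊)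
      exact one_div_pos.2 this
  have e1 := htend'.eventually (hM η hη)
  have e2 := ev_logs C hη
  have e3 : ∀ᶠ n : ℕ in atTop, (2 : ℝ) ≤ (n : ℝ) ^ η :=
    ((tendsto_rpow_atTop hη).comp (tendsto_natCast_atTop_atTop (R := ℝ))).eventually_ge_atTop 2
  filter_upwards [e1, e2, e3, htend.eventually_ge_atTop (max N0 2), eventually_ge_atTop 2] with n
    f1 f2 f3 f4 f5
  obtain ⟨N, hN⟩ : ∃ N, N = ⌊(n : ℝ) ^ β⌋₊ := ⟨_, rfl⟩
  rw [← hN] at f1 f4
  have hnr : (2 : ℝ) ≤ n := by exact_mod_cast f5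
  have hn0 : (0 : ℝ) < n := by linarith
  have hn1 : (1 : ℝ) ≤ n := by linarith
  have hN2 : 2 ≤ N := (le_max_right _ _).trans f4
  have hNr : (2 : ℝ) ≤ N := by exact_mod_cast hN2
  have hNp : (0 : ℝ) < N := by linarith
  have hNβ : (N : ℝ) ≤ (n : ℝ) ^ β := by
    rw [hN]
    exact Nat.floor_le (by positivity)
  have hβn : (n : ℝ) ^ β ≤ 2 * N := by
    have := Nat.lt_floor_add_one ((n : ℝ) ^ β)
    rw [← hN] at this
    linarith
  have hNn : (N : ℝ) ≤ n := by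
    refine hNβ.trans ?_
    have := Real.rpow_le_rpow_of_exponent_le hn1 hβ1.le
    rwa [Real.rpow_one] at this
  have hlog : Real.log N ^ 2 ≤ Real.log n ^ 2 :=
    pow_le_pow_left₀ (Real.log_natCast_nonneg N) (Real.log_le_log hNp hNn) 2
  have hmass : 0 < Y981.L2.mass (1 / N) := Y981.L2.mass_pos (by positivity)
  refine ⟨N, (le_max_left _ _).trans f4, by exact_mod_cast hNn,
    (mul_le_mul_of_nonneg_left hlog hC).trans f2, ?_, ?_⟩
  · have g1 : 1 / Y981.L2.mass (1 / N) ≤ (N : ℝ) ^ (θ + η) := by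
      rw [div_le_iff₀ hmass]
      rw [one_div, Real.inv_rpow hNp.le] at f1
      have hNq : 0 < (N : ℝ) ^ (θ + η) := Real.rpow_pos_of_pos hNp _
      have := mul_le_mul_of_nonneg_left f1 hNq.le
      rw [mul_inv_cancel₀ hNq.ne'] at this
      rw [one_div]
      exact this
    refine g1.trans ((Real.rpow_le_rpow hNp.le hNβ (by positivity)).trans ?_)
    rw [← Real.rpow_mul hn0.le]
    apply Real.rpow_le_rpow_of_exponent_le hn1
    nlinarith
  · have g1 : (n : ℝ) / N ≤ 2 * (n : ℝ) ^ (1 - β) := by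
      rw [div_le_iff₀ hNp, Real.rpow_sub hn0, Real.rpow_one]
      have hp : 0 < (n : ℝ) ^ β := Real.rpow_pos_of_pos hn0 _
      rw [mul_div_assoc', div_mul_eq_mul_div, le_div_iff₀ hp]
      nlinarith
    refine g1.trans ?_
    rw [Real.rpow_add hn0, mul_comm]
    exact mul_le_mul_of_nonneg_left f3 (by positivity)

/-- scales for the width -/
theorem choose_width {θ : ℝ} (h0 : 0 < θ) (hM : MassLow θ) {a : ℝ} (ha : 0 < a) (haθ : a < θ)
    {ε : ℝ} (hε : 0 < ε) {C K : ℝ} (hC : 0 < C) (hK : 0 < K) :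
    ∀ᶠ n : ℕ in atTop, ∃ N : ℕ, 2 ≤ N ∧ N ≤ n ∧
      C * (Real.log N ^ 2 / mass (1 / N)) ≤ (n : ℝ) ^ a ∧
      K * (n / N * Real.log N ^ 2) ≤ (n : ℝ) ^ (1 - a / θ + ε) := by
  obtain ⟨η, hη⟩ : ∃ η, η = min (a / 4) (ε / (2 / θ + 2)) := ⟨_, rfl⟩
  have hη0 : 0 < η := by rw [hη]; apply lt_min <;> positivity
  have hη1 : η ≤ a / 4 := by rw [hη]; exact min_le_left _ _
  have hη2 : η * (2 / θ + 2) ≤ ε := by
    rw [← le_div_iff₀ (by positivity), hη]
    exact min_le_right _ _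
  obtain ⟨β, hβ⟩ : ∃ β, β = (a - 2 * η) / θ := ⟨_, rfl⟩
  have hβ0 : 0 < β := by rw [hβ]; apply div_pos _ h0; linarith
  have hβ1 : β < 1 := by rw [hβ, div_lt_one h0]; linarith
  have hβθ : β * θ = a - 2 * η := by rw [hβ, div_mul_cancel₀ _ h0.ne']
  filter_upwards [gen_N h0 hM hβ0 hβ1 hη0 2 (show 0 ≤ C + K by positivity),
    eventually_ge_atTop 1] with n hn hn1
  obtain ⟨N, h1, h2, h3, h4, h5⟩ := hn
  have hnr : (1 : ℝ) ≤ n := by exact_mod_cast hn1
  have hn0 : (0 : ℝ) < n := by linarith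
  have hL : 0 ≤ Real.log (N : ℝ) ^ 2 := sq_nonneg _
  have hNp : (0 : ℝ) < N := by exact_mod_cast (by omega : 0 < N)
  have hmass : 0 < Y981.L2.mass (1 / N) := Y981.L2.mass_pos (by positivity)
  refine ⟨N, h1, h2, ?_, ?_⟩
  · calc C * (Real.log N ^ 2 / Y981.L2.mass (1 / N))
        = C * Real.log N ^ 2 * (1 / Y981.L2.mass (1 / N)) := by ring
      _ ≤ (n : ℝ) ^ η * (n : ℝ) ^ (β * θ + η) := by
          apply mul_le_mul _ h4 (by positivity) (by positivity)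
          nlinarith
      _ = (n : ℝ) ^ a := by
          rw [← Real.rpow_add hn0, hβθ]
          congr 1
          ring
  · calc K * (n / N * Real.log N ^ 2) = K * Real.log N ^ 2 * (n / N) := by ring
      _ ≤ (n : ℝ) ^ η * (n : ℝ) ^ (1 - β + η) := by
          apply mul_le_mul _ h5 (by positivity) (by positivity)
          nlinarith
      _ = (n : ℝ) ^ (η + (1 - β + η)) := by rw [← Real.rpow_add hn0]
      _ ≤ _ := by
          apply Real.rpow_le_rpow_of_exponent_le hnr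
          have e1 : β = a / θ - 2 / θ * η := by rw [hβ]; ring
          rw [e1]
          nlinarith

/-- scales for the area -/
theorem choose_area {θ : ℝ} (_h0 : 1 / 2 < θ) (hM : MassLow θ) {b : ℝ} (hb : 1 < b)
    (hbθ : b < 2 * θ) {ε : ℝ} (hε : 0 < ε) {C K : ℝ} (hC : 0 < C) (hK : 0 < K) :
    ∀ᶠ n : ℕ in atTop, ∃ N : ℕ, 2 ≤ N ∧ N ≤ n ∧
      (C * (Real.log N ^ 2 / mass (1 / N))) * (C * (n / N * (Real.log N ^ 2 / mass (1 / N)))) ≤
        (n : ℝ) ^ b ∧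
      K * (n / N * Real.log N ^ 2) ≤ (n : ℝ) ^ ((2 * θ - b) / (2 * θ - 1) + ε) := by
  have hs : 0 < 2 * θ - 1 := by linarith
  have hθ0 : 0 < θ := by linarith
  obtain ⟨η, hη⟩ : ∃ η, η = min ((b - 1) / 10) (ε / (5 / (2 * θ - 1) + 2)) := ⟨_, rfl⟩
  have hη0 : 0 < η := by
    rw [hη]
    apply lt_min
    · linarith
    · positivity
  have hη1 : η ≤ (b - 1) / 10 := by rw [hη]; exact min_le_left _ _
  have hη2 : η * (5 / (2 * θ - 1) + 2) ≤ ε := by
    rw [← le_div_iff₀ (by positivity), hη]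
    exact min_le_right _ _
  obtain ⟨β, hβ⟩ : ∃ β, β = (b - 1 - 5 * η) / (2 * θ - 1) := ⟨_, rfl⟩
  have hβ0 : 0 < β := by rw [hβ]; apply div_pos _ hs; linarith
  have hβ1 : β < 1 := by rw [hβ, div_lt_one hs]; linarith
  have hβθ : β * (2 * θ - 1) = b - 1 - 5 * η := by rw [hβ, div_mul_cancel₀ _ hs.ne']
  filter_upwards [gen_N (by linarith) hM hβ0 hβ1 hη0 2 (show 0 ≤ C + K by positivity),
    eventually_ge_atTop 1] with n hn hn1
  obtain ⟨N, h1, h2, h3, h4, h5⟩ := hn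
  have hnr : (1 : ℝ) ≤ n := by exact_mod_cast hn1
  have hn0 : (0 : ℝ) < n := by linarith
  have hL : 0 ≤ Real.log (N : ℝ) ^ 2 := sq_nonneg _
  have hNp : (0 : ℝ) < N := by exact_mod_cast (by omega : 0 < N)
  have hmass : 0 < Y981.L2.mass (1 / N) := Y981.L2.mass_pos (by positivity)
  have hr : C * (Real.log N ^ 2 / Y981.L2.mass (1 / N)) ≤ (n : ℝ) ^ (β * θ + 2 * η) := by
    calc C * (Real.log N ^ 2 / Y981.L2.mass (1 / N))
        = C * Real.log N ^ 2 * (1 / Y981.L2.mass (1 / N)) := by ring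
      _ ≤ (n : ℝ) ^ η * (n : ℝ) ^ (β * θ + η) := by
          apply mul_le_mul _ h4 (by positivity) (by positivity)
          nlinarith
      _ = _ := by
          rw [← Real.rpow_add hn0]
          congr 1
          ring
  refine ⟨N, h1, h2, ?_, ?_⟩
  · have hr0 : 0 ≤ C * (Real.log N ^ 2 / Y981.L2.mass (1 / N)) := by positivity
    calc (C * (Real.log N ^ 2 / Y981.L2.mass (1 / N))) *
          (C * (n / N * (Real.log N ^ 2 / Y981.L2.mass (1 / N))))
        = (C * (Real.log N ^ 2 / Y981.L2.mass (1 / N))) *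
          (C * (Real.log N ^ 2 / Y981.L2.mass (1 / N))) * (n / N) := by ring
      _ ≤ (n : ℝ) ^ (β * θ + 2 * η) * (n : ℝ) ^ (β * θ + 2 * η) * (n : ℝ) ^ (1 - β + η) := by
          apply mul_le_mul _ h5 (by positivity) (by positivity)
          exact mul_le_mul hr hr hr0 (by positivity)
      _ = (n : ℝ) ^ b := by
          rw [← Real.rpow_add hn0, ← Real.rpow_add hn0]
          congr 1
          linarith
  · calc K * (n / N * Real.log N ^ 2) = K * Real.log N ^ 2 * (n / N) := by ring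
      _ ≤ (n : ℝ) ^ η * (n : ℝ) ^ (1 - β + η) := by
          apply mul_le_mul _ h5 (by positivity) (by positivity)
          nlinarith
      _ = (n : ℝ) ^ (η + (1 - β + η)) := by rw [← Real.rpow_add hn0]
      _ ≤ _ := by
          apply Real.rpow_le_rpow_of_exponent_le hnr
          have e1 : (2 * θ - b) / (2 * θ - 1) = 1 - β - 5 / (2 * θ - 1) * η := by
            rw [hβ]
            field_simp
            ring
          rw [e1]
          nlinarith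

end Pool.Agent.X144.Np
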