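import Pool.Agent.X144.Fi.Mean
import Pool.Agent.X144.Fi.Speed

/-!
# Linear scale
-/

set_option autoImplicit false

namespace Pool.Agent.X144.Np

open Filter Topology
open Pool.Agent.Y981.L2 Pool.Agent.X144.Fi

theorem tendsto_log2 : Tendsto (fun n : ℕ => Real.log n ^ 2 / (n : ℝ)) atTop (𝓝 0) := by
  have h1 : Tendsto (fun x : ℝ => Real.log x ^ 2 / x) atTop (𝓝 0) :=
    (Real.isLittleO_pow_log_id_atTop (n := 2)).tendsto_div_nhds_zero
  exact h1.comp (tendsto_natCast_atTop_atTop (R := ℝ))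

theorem le_of_ev {t s A : ℝ} (h : ∀ᶠ n : ℕ in atTop, (n : ℝ) * t ≤ n * s + A * Real.log n ^ 2) :
    t ≤ s := by
  have h1 : Tendsto (fun n : ℕ => s + A * (Real.log n ^ 2 / (n : ℝ))) atTop (𝓝 (s + A * 0)) :=
    (tendsto_log2.const_mul A).const_add s
  rw [mul_zero, add_zero] at h1
  refine ge_of_tendsto h1 ?_
  filter_upwards [h, eventually_ge_atTop 1] with n hn hn1
  have hn0 : (0 : ℝ) < n := by exact_mod_cast hn1
  have h2 : (n : ℝ) * (s + A * (Real.log n ^ 2 / n)) = n * s + A * Real.log n ^ 2 := by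
    field_simp
  rw [← h2] at hn
  exact le_of_mul_le_mul_left hn hn0

/-- powers at comparable points -/
theorem ev_pow {p q c : ℝ} (hc : 0 < c) (hpq : p < q) (d : ℝ) (hd : 0 < d) :
    ∀ᶠ v in 𝓝[>] (0 : ℝ), v ^ q ≤ d * (c * v) ^ p := by
  have h1 : Tendsto (fun v : ℝ => v ^ (q - p)) (𝓝[>] 0) (𝓝 0) := by
    have h2 : ContinuousAt (fun v : ℝ => v ^ (q - p)) 0 :=
      Real.continuousAt_rpow_const _ _ (Or.inr (by linarith))
    have h3 := h2.tendsto
    rw [Real.zero_rpow (by linarith)] at h3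
    exact h3.mono_left nhdsWithin_le_nhds
  have h4 := h1.eventually (ge_mem_nhds (show 0 < d * c ^ p by positivity))
  filter_upwards [h4, self_mem_nhdsWithin] with v h5 hv
  have hv0 : 0 < v := hv
  rw [Real.mul_rpow hc.le hv0.le, ← mul_assoc]
  have h6 : v ^ q = v ^ (q - p) * v ^ p := by
    rw [← Real.rpow_add hv0, sub_add_cancel]
  rw [h6]
  exact mul_le_mul_of_nonneg_right h5 (by positivity)

theorem tendsto_mul_zero {c : ℝ} (hc : 0 < c) :
    Tendsto (fun v : ℝ => c * v) (𝓝[>] 0) (𝓝[>] 0) := by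
  have h1 := tendsto_pow_zero (C := c) hc one_pos
  refine h1.congr ?_
  intro v
  rw [Real.rpow_one]

theorem ev_exists {P : ℝ → Prop} (h : ∀ᶠ v in 𝓝[>] (0 : ℝ), P v) :
    ∃ v₁ : ℝ, 0 < v₁ ∧ ∀ v : ℝ, 0 < v → v ≤ v₁ → P v := by
  rw [eventually_nhdsWithin_iff, Metric.eventually_nhds_iff] at h
  obtain ⟨δ, hδ, h⟩ := h
  refine ⟨δ / 2, by positivity, fun v hv hv1 => h ?_ hv⟩
  rw [Real.dist_eq, sub_zero, abs_of_pos hv]
  linarith

theorem ev_of_exists {P : ℝ → Prop} {v₁ : ℝ} (h1 : 0 < v₁)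
    (h : ∀ v : ℝ, 0 < v → v ≤ v₁ → P v) : ∀ᶠ v in 𝓝[>] (0 : ℝ), P v := by
  filter_upwards [self_mem_nhdsWithin, (eventually_nhdsWithin_of_eventually_nhds (ge_mem_nhds h1))]
    with v hv hv1
  exact h v hv hv1

/-- **linear scale, upper half** -/
theorem lin_up {T : ℕ → ℝ → ℝ} {C K : ℝ} (h : Cmp T C K) {θ : ℝ} :
    RateUp θ ↔ ∀ ε : ℝ, 0 < ε → ∃ v₁ : ℝ, 0 < v₁ ∧ ∃ K' : ℝ, ∀ n : ℕ, 2 ≤ n → ∀ v : ℝ,
      1 / (n : ℝ) ≤ v → v ≤ v₁ →
      T n (v * n) ≤ Real.exp (-((n : ℝ) * v ^ (1 / (1 - θ) + ε)) + K' * Real.log n ^ 2) := by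
  have hC := h.hC
  have hK := h.hK
  have hC0 : 0 < C := by linarith
  constructor
  · intro hR ε hε
    have h1 := (tendsto_mul_zero (c := 1 / C) (by positivity)).eventually (hR (ε / 2) (by linarith))
    have h2 := ev_pow (c := 1 / C) (by positivity)
      (show 1 / (1 - θ) + ε / 2 < 1 / (1 - θ) + ε by linarith) 1 one_pos
    obtain ⟨v₁, hv1, h3⟩ := ev_exists (h1.and h2)
    refine ⟨min v₁ (1 / C), lt_min hv1 (by positivity), K, ?_⟩
    intro n hn v hv hvv
    have hn0 : (0 : ℝ) < n := by exact_mod_cast (by omega : 0 < n)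
    have hv0 : 0 < v := lt_of_lt_of_le (by positivity) hv
    obtain ⟨h4, h5⟩ := h3 v hv0 (hvv.trans (min_le_left _ _))
    have h6 : C * v ≤ 1 := by
      have := hvv.trans (min_le_right _ _)
      rw [le_div_iff₀ hC0] at this
      linarith
    have h7 : 1 ≤ v * n := by
      rw [div_le_iff₀ hn0] at hv
      exact hv
    have h8 := h.up n hn (v * n) h7 (by nlinarith)
    refine h8.trans (Real.exp_le_exp.2 ?_)
    have e1 : v * n / (C * n) = 1 / C * v := by field_simp
    rw [e1]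
    have h9 : v ^ (1 / (1 - θ) + ε) ≤ R (1 / C * v) := by
      rw [one_mul] at h5
      exact h5.trans h4
    have h10 := mul_le_mul_of_nonneg_left h9 hn0.le
    linarith
  · intro hT ε hε
    obtain ⟨v₁, hv1, K', h1⟩ := hT (ε / 2) (by linarith)
    have h2 := ev_pow (c := 1 / C) (by positivity)
      (show 1 / (1 - θ) + ε / 2 < 1 / (1 - θ) + ε by linarith) (1 / C) (by positivity)
    obtain ⟨v₂, hv2, h3⟩ := ev_exists h2
    apply ev_of_exists (v₁ := min v₂ (min (C * v₁) 1)) (lt_min hv2 (lt_min (by positivity) one_pos))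
    intro u hu huu
    have hu1 : u ≤ v₂ := huu.trans (min_le_left _ _)
    have hu2 : u ≤ C * v₁ := huu.trans ((min_le_right _ _).trans (min_le_left _ _))
    have hu3 : u ≤ 1 := huu.trans ((min_le_right _ _).trans (min_le_right _ _))
    have h4 := h3 u hu hu1
    refine h4.trans ?_
    obtain ⟨v, hv⟩ : ∃ v, v = 1 / C * u := ⟨_, rfl⟩
    rw [← hv]
    have hCv : C * v = u := by rw [hv]; field_simp
    have hv0 : 0 < v := by rw [hv]; positivity
    have hvv1 : v ≤ v₁ := by
      rw [← hCv] at hu2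
      exact le_of_mul_le_mul_left hu2 hC0
    have key : v ^ (1 / (1 - θ) + ε / 2) ≤ C * R u := by
      apply le_of_ev (A := K + K')
      filter_upwards [eventually_ge_atTop (max 2 ⌈1 / v⌉₊)] with n hn
      have hn2 : 2 ≤ n := (le_max_left _ _).trans hn
      have hn3 : 1 / v ≤ n := (Nat.le_ceil _).trans (by exact_mod_cast (le_max_right _ _).trans hn)
      have hn0 : (0 : ℝ) < n := by exact_mod_cast (by omega : 0 < n)
      have h5 : 1 ≤ v * n := by
        rw [div_le_iff₀ hv0] at hn3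
        linarith
      have h6 := h1 n hn2 v (by rw [div_le_iff₀ hn0]; exact h5) hvv1
      have h7 := h.low n hn2 (v * n) h5 (by
        calc C * (v * n) = u * n := by rw [← hCv]; ring
          _ ≤ 1 * n := mul_le_mul_of_nonneg_right hu3 hn0.le
          _ = n := one_mul _)
      have e1 : C * (v * n) / n = u := by rw [← hCv]; field_simp
      rw [e1] at h7
      have h8 := Real.exp_le_exp.1 (h7.trans h6)
      nlinarith
    rw [div_mul_eq_mul_div, one_mul, div_le_iff₀ hC0]
    linarith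

/-- **linear scale, lower half** -/
theorem lin_low {T : ℕ → ℝ → ℝ} {C K : ℝ} (h : Cmp T C K) {θ : ℝ} :
    RateLow θ ↔ ∀ ε : ℝ, 0 < ε → ∃ v₁ : ℝ, 0 < v₁ ∧ ∃ K' : ℝ, ∀ n : ℕ, 2 ≤ n → ∀ v : ℝ,
      1 / (n : ℝ) ≤ v → v ≤ v₁ →
      Real.exp (-((n : ℝ) * v ^ (1 / (1 - θ) - ε) + K' * Real.log n ^ 2)) ≤ T n (v * n) := by
  have hC := h.hC
  have hK := h.hK
  have hC0 : 0 < C := by linarith
  constructor
  · intro hR ε hε
    have h1 := (tendsto_mul_zero (c := C) hC0).eventually (hR (ε / 2) (by linarith))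
    have h2 := (tendsto_mul_zero (c := C) hC0).eventually (ev_pow (c := 1 / C) (by positivity)
      (show 1 / (1 - θ) - ε < 1 / (1 - θ) - ε / 2 by linarith) (1 / C) (by positivity))
    obtain ⟨v₁, hv1, h3⟩ := ev_exists (h1.and h2)
    refine ⟨min v₁ (1 / C), lt_min hv1 (by positivity), K, ?_⟩
    intro n hn v hv hvv
    have hn0 : (0 : ℝ) < n := by exact_mod_cast (by omega : 0 < n)
    have hv0 : 0 < v := lt_of_lt_of_le (by positivity) hv
    obtain ⟨h4, h5⟩ := h3 v hv0 (hvv.trans (min_le_left _ _))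
    have h6 : C * v ≤ 1 := by
      have := hvv.trans (min_le_right _ _)
      rw [le_div_iff₀ hC0] at this
      linarith
    have h7 : 1 ≤ v * n := by
      rw [div_le_iff₀ hn0] at hv
      exact hv
    have h8 := h.low n hn (v * n) h7 (by nlinarith)
    refine le_trans (Real.exp_le_exp.2 ?_) h8
    have e1 : C * (v * n) / n = C * v := by field_simp
    have e2 : 1 / C * (C * v) = v := by field_simp
    rw [e1]
    rw [e2] at h5
    have h9 : C * R (C * v) ≤ v ^ (1 / (1 - θ) - ε) := by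
      have h10 := mul_le_mul_of_nonneg_left (h4.trans h5) hC0.le
      have e3 : C * (1 / C * v ^ (1 / (1 - θ) - ε)) = v ^ (1 / (1 - θ) - ε) := by field_simp
      rwa [e3] at h10
    have h10 := mul_le_mul_of_nonneg_left h9 hn0.le
    nlinarith
  · intro hT ε hε
    obtain ⟨v₁, hv1, K', h1⟩ := hT (ε / 2) (by linarith)
    have h2 := (tendsto_mul_zero (c := C) hC0).eventually (ev_pow (c := 1 / C) (by positivity)
      (show 1 / (1 - θ) - ε < 1 / (1 - θ) - ε / 2 by linarith) 1 one_pos)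
    have h2' := ev_pow (c := C) hC0
      (show 1 / (1 - θ) - ε < 1 / (1 - θ) - ε / 2 by linarith) 1 one_pos
    have h2'' : ∀ᶠ v in 𝓝[>] (0 : ℝ), (C * v) ^ (1 / (1 - θ) - ε / 2) ≤ v ^ (1 / (1 - θ) - ε) := by
      filter_upwards [h2] with v hv
      have e : 1 / C * (C * v) = v := by field_simp
      rwa [e, one_mul] at hv
    obtain ⟨v₂, hv2, h3⟩ := ev_exists h2''
    apply ev_of_exists (v₁ := min v₂ (min (v₁ / C) (1 / C ^ 2)))
      (lt_min hv2 (lt_min (by positivity) (by positivity)))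
    intro u hu huu
    have hu1 : u ≤ v₂ := huu.trans (min_le_left _ _)
    have hu2 : u ≤ v₁ / C := huu.trans ((min_le_right _ _).trans (min_le_left _ _))
    have hu3 : u ≤ 1 / C ^ 2 := huu.trans ((min_le_right _ _).trans (min_le_right _ _))
    have h4 := h3 u hu hu1
    refine le_trans ?_ h4
    obtain ⟨v, hv⟩ : ∃ v, v = C * u := ⟨_, rfl⟩
    rw [← hv]
    have hv0 : 0 < v := by rw [hv]; positivity
    have hvv1 : v ≤ v₁ := by
      rw [le_div_iff₀ hC0] at hu2
      rw [hv]
      linarith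
    have hCv : C * v ≤ 1 := by
      rw [le_div_iff₀ (by positivity)] at hu3
      rw [hv]
      nlinarith
    apply le_of_ev (A := K + K')
    filter_upwards [eventually_ge_atTop (max 2 ⌈1 / v⌉₊)] with n hn
    have hn2 : 2 ≤ n := (le_max_left _ _).trans hn
    have hn3 : 1 / v ≤ n := (Nat.le_ceil _).trans (by exact_mod_cast (le_max_right _ _).trans hn)
    have hn0 : (0 : ℝ) < n := by exact_mod_cast (by omega : 0 < n)
    have h5 : 1 ≤ v * n := by
      rw [div_le_iff₀ hv0] at hn3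
      linarith
    have h6 := h1 n hn2 v (by rw [div_le_iff₀ hn0]; exact h5) hvv1
    have h7 := h.up n hn2 (v * n) h5 (by nlinarith)
    have e1 : v * n / (C * n) = u := by rw [hv]; field_simp
    rw [e1] at h7
    have h8 := Real.exp_le_exp.1 (h6.trans h7)
    nlinarith

/-- **linear scale, unconditional bounds** -/
theorem lin_bounds {T : ℕ → ℝ → ℝ} {C K : ℝ} (h : Cmp T C K) :
    ∃ C' K' v₀ : ℝ, 0 < C' ∧ 0 < K' ∧ 0 < v₀ ∧ v₀ < 1 / 2 ∧ ∀ n : ℕ, 2 ≤ n → ∀ v : ℝ,
      1 / (n : ℝ) ≤ v → v ≤ v₀ →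
      Real.exp (-(K' * (n * v ^ 2 * Real.log (1 / v) ^ 2 + Real.log n ^ 2))) ≤ T n (v * n) ∧
      T n (v * n) ≤ Real.exp (-(n * v ^ (C' * Real.log (Real.log (1 / v)))) +
        K' * Real.log n ^ 2) := by
  have hC := h.hC
  have hK := h.hK
  have hC0 : 0 < C := by linarith
  obtain ⟨C1, hC1, hlow⟩ := R_low
  obtain ⟨K5, hK5, h5⟩ := R_quad
  have h1 := (tendsto_mul_zero (c := 1 / C) (by positivity)).eventually hlow
  -- comparison of the two powers
  have hLL : Tendsto (fun v : ℝ => Real.log (Real.log (1 / v))) (𝓝[>] 0) atTop :=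
    Real.tendsto_log_atTop.comp tendsto_L
  have hL : Tendsto (fun v : ℝ => Real.log (1 / v)) (𝓝[>] 0) atTop := tendsto_L
  have h2 : ∀ᶠ v in 𝓝[>] (0 : ℝ), v ^ (4 * C1 * Real.log (Real.log (1 / v))) ≤
      (1 / C * v) ^ (C1 * Real.log (Real.log (1 / (1 / C * v)))) := by
    filter_upwards [hL.eventually_ge_atTop (max 2 (Real.log C)), self_mem_nhdsWithin,
      eventually_nhdsWithin_of_eventually_nhds (gt_mem_nhds one_pos)] with v h3 hv hv1
    have hv0 : 0 < v := hv
    have h4 : 2 ≤ Real.log (1 / v) := (le_max_left _ _).trans h3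
    have h6 : Real.log C ≤ Real.log (1 / v) := (le_max_right _ _).trans h3
    have hlogC : 0 ≤ Real.log C := Real.log_nonneg hC
    have e1 : Real.log (1 / (1 / C * v)) = Real.log C + Real.log (1 / v) := by
      rw [one_div_mul_eq_div, one_div_div, ← Real.log_mul hC0.ne' (by positivity)]
      congr 1
      ring
    have h7 : Real.log (1 / (1 / C * v)) ≤ Real.log (1 / v) ^ 2 := by
      rw [e1]
      nlinarith
    have h8 : 0 < Real.log (1 / (1 / C * v)) := by rw [e1]; linarith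
    have h9 : Real.log (Real.log (1 / (1 / C * v))) ≤ 2 * Real.log (Real.log (1 / v)) := by
      have := Real.log_le_log h8 h7
      rwa [Real.log_pow] at this
    have h10 : 0 ≤ Real.log (Real.log (1 / (1 / C * v))) := Real.log_nonneg (by rw [e1]; linarith)
    have h11 : v ^ 2 ≤ 1 / C * v := by
      have h12 : C * v ≤ 1 := by
        have h13 : Real.log (C * v) ≤ 0 := by
          rw [Real.log_mul hC0.ne' hv0.ne']
          rw [one_div, Real.log_inv] at h6
          linarith
        by_contra hcon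
        push Not at hcon
        have := Real.log_pos hcon
        linarith
      rw [one_div_mul_eq_div, le_div_iff₀ hC0]
      nlinarith
    calc v ^ (4 * C1 * Real.log (Real.log (1 / v)))
        ≤ v ^ (2 * (C1 * Real.log (Real.log (1 / (1 / C * v))))) := by
          apply Real.rpow_le_rpow_of_exponent_ge hv0 hv1.le
          nlinarith
      _ = (v ^ 2) ^ (C1 * Real.log (Real.log (1 / (1 / C * v)))) := by
          rw [Real.rpow_mul hv0.le, Real.rpow_two]
      _ ≤ _ := Real.rpow_le_rpow (by positivity) h11 (mul_nonneg hC1.le h10)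
  obtain ⟨v₁, hv1, h3⟩ := ev_exists (h1.and h2)
  refine ⟨4 * C1, K + K5 * C ^ 3 + 1, min v₁ (1 / (4 * C)), by positivity, by positivity,
    lt_min hv1 (by positivity), ?_, ?_⟩
  · refine lt_of_le_of_lt (min_le_right _ _) ?_
    rw [div_lt_div_iff₀ (by positivity) (by norm_num)]
    linarith
  intro n hn v hv hvv
  have hn0 : (0 : ℝ) < n := by exact_mod_cast (by omega : 0 < n)
  have hv0 : 0 < v := lt_of_lt_of_le (by positivity) hv
  obtain ⟨h4, h6⟩ := h3 v hv0 (hvv.trans (min_le_left _ _))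
  have h7 : C * v ≤ 1 / 4 := by
    have := hvv.trans (min_le_right _ _)
    rw [le_div_iff₀ (by positivity)] at this
    linarith
  have h8 : 1 ≤ v * n := by
    rw [div_le_iff₀ hn0] at hv
    exact hv
  have hCn : C * (v * n) ≤ n := by nlinarith
  have h9 := h.up n hn (v * n) h8 hCn
  have h10 := h.low n hn (v * n) h8 hCn
  have e1 : v * n / (C * n) = 1 / C * v := by field_simp
  have e2 : C * (v * n) / n = C * v := by field_simp
  rw [e1] at h9
  rw [e2] at h10
  have hlog : 0 ≤ Real.log (n : ℝ) ^ 2 := sq_nonneg _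
  constructor
  · refine le_trans (Real.exp_le_exp.2 ?_) h10
    have h11 := h5 (C * v) (by positivity) (by linarith)
    have h12 : Real.log (1 / (C * v)) ^ 2 ≤ Real.log (1 / v) ^ 2 := by
      apply pow_le_pow_left₀
      · apply Real.log_nonneg
        rw [one_le_div (by positivity)]
        linarith
      · apply Real.log_le_log (by positivity)
        apply one_div_le_one_div_of_le hv0
        nlinarith
    have h13 : R (C * v) ≤ K5 * C ^ 2 * (v ^ 2 * Real.log (1 / v) ^ 2) := by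
      refine h11.trans ?_
      have h14 := mul_le_mul_of_nonneg_left h12 (show 0 ≤ K5 * (C * v) ^ 2 by positivity)
      calc _ ≤ K5 * (C * v) ^ 2 * Real.log (1 / v) ^ 2 := h14
        _ = _ := by ring
    have h15 : C * (n * R (C * v)) ≤ K5 * C ^ 3 * (n * v ^ 2 * Real.log (1 / v) ^ 2) := by
      have := mul_le_mul_of_nonneg_left h13 (show 0 ≤ C * n by positivity)
      calc C * (n * R (C * v)) = C * n * R (C * v) := by ring
        _ ≤ _ := this
        _ = _ := by ring
    have h16 : 0 ≤ n * v ^ 2 * Real.log (1 / v) ^ 2 := by positivity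
    have h17 : 0 ≤ K5 * C ^ 3 := by positivity
    nlinarith [mul_nonneg hK h16, mul_nonneg h17 hlog]
  · refine h9.trans (Real.exp_le_exp.2 ?_)
    have h11 := mul_le_mul_of_nonneg_left (h6.trans h4) hn0.le
    have h17 : 0 ≤ K5 * C ^ 3 := by positivity
    nlinarith [mul_nonneg h17 hlog]

end Pool.Agent.X144.Np
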