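import Pool.Agent.X144.Np.Arch

/-!
# Narrow polygons: the numbers
-/

set_option autoImplicit false

namespace Pool.Agent.X144.Np

open Pool.Agent.TH795.EP Pool.Agent.TH795.EP2 Pool.Agent.Y981.L2 H981 Finset

theorem wide_of {w : List St} {T : ℤ} (hT : 0 ≤ T) (h : ¬ Rg T T T w) :
    Wide T w := by
  unfold Rg at h
  push Not at h
  obtain ⟨k, hk⟩ := h
  have h0 : path w 0 = (0, 0) := by simp [path]
  have key : ∃ j ≤ w.length, T < |(path w j).1| ∨ T < |(path w j).2| := by
    have hj : ∃ j ≤ w.length, path w k = path w j := by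
      rcases le_or_gt k w.length with h | h
      · exact ⟨k, h, rfl⟩
      · exact ⟨w.length, le_rfl, path_ge h.le⟩
    obtain ⟨j, hj1, hj2⟩ := hj
    rw [hj2] at hk
    refine ⟨j, hj1, ?_⟩
    by_contra hcon
    push Not at hcon
    have h1 := abs_le.1 hcon.1
    have h2 := abs_le.1 hcon.2
    have := hk h1.1 h1.2
    omega
  obtain ⟨j, hj, h1⟩ := key
  refine ⟨0, j, Nat.zero_le _, hj, ?_⟩
  rw [h0]
  unfold ln2
  simp only [sub_zero]
  apply Real.le_sqrt_of_sq_le
  have hTr : (0 : ℝ) ≤ T := by exact_mod_cast hT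
  rcases h1 with h1 | h1
  · have h2 : (T : ℝ) ≤ |((path w j).1 : ℝ)| := by exact_mod_cast h1.le
    have h3 := pow_le_pow_left₀ hTr h2 2
    rw [sq_abs] at h3
    nlinarith [sq_nonneg ((path w j).2 : ℝ)]
  · have h2 : (T : ℝ) ≤ |((path w j).2 : ℝ)| := by exact_mod_cast h1.le
    have h3 := pow_le_pow_left₀ hTr h2 2
    rw [sq_abs] at h3
    nlinarith [sq_nonneg ((path w j).1 : ℝ)]

theorem ar_le {m : ℕ} {T : ℤ} (hT : 0 ≤ T) :
    (ar (2 * m - 1) : ℝ) ≤ (A m T).card + c (2 * m - 1) * dfar (2 * m - 1) T := by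
  classical
  unfold dfar
  rw [mul_div_cancel₀ _ (c_pos _).ne']
  have h1 : ar (2 * m - 1) ≤ (A m T).card + (fs (fun w => Saw w ∧ Wide T w) (2 * m - 1)).card := by
    unfold ar A
    rw [← Finset.card_disjSum]
    have h2 : (fs Arch (2 * m - 1)) ⊆ fs (fun w => Arch w ∧ Rg T T T w) (2 * m - 1) ∪
        fs (fun w => Saw w ∧ Wide T w) (2 * m - 1) := by
      intro w hw
      rw [mem_fs] at hw
      rw [Finset.mem_union, mem_fs, mem_fs]
      by_cases h : Rg T T T w
      · exact Or.inl ⟨⟨hw.1, h⟩, hw.2⟩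
      · exact Or.inr ⟨⟨hw.1.1, wide_of hT h⟩, hw.2⟩
    refine (Finset.card_le_card h2).trans ((Finset.card_union_le _ _).trans ?_)
    rw [Finset.card_disjSum]
  exact_mod_cast h1

theorem A_lower : ∃ C K : ℝ, 0 < C ∧ 0 ≤ K ∧ ∀ N : ℕ, 2 ≤ N → ∀ T : ℤ,
    C * (Real.log N ^ 2 / mass (1 / N)) ≤ T → ∀ m : ℕ, N ≤ m → m ≤ 2 * N →
      mu ^ (2 * m) * Real.exp (-(K * Real.log N ^ 2)) ≤ ((A m T).card : ℝ) := by
  obtain ⟨K0, hK0, h1, h2⟩ := exists_K
  obtain ⟨K1, hK1, h3⟩ := dfar_le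
  obtain ⟨K2, hK2, h4⟩ := X144.Fi.far_mass
  refine ⟨2 * (18 * K0 + 9 * K1 + 9 * K2 + 11), 9 * K0 + 3, by positivity, by positivity, ?_⟩
  intro N hN T hT m hm1 hm2
  have hNr : (2 : ℝ) ≤ N := by exact_mod_cast hN
  have hNp : (0 : ℝ) < N := by linarith
  have hmu := mu_pos
  have hmu1 := one_le_mu
  have hmass : 0 < Y981.L2.mass (1 / N) := Y981.L2.mass_pos (by positivity)
  obtain ⟨w, hw⟩ : ∃ w, w = Real.log (N : ℝ) ^ 2 := ⟨_, rfl⟩
  have hl2 := Real.log_two_gt_d9
  have hlN : Real.log 2 ≤ Real.log N := Real.log_le_log (by norm_num) hNr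
  have hw0 : 12 / 25 ≤ w := by rw [hw]; nlinarith
  rw [← hw] at hT ⊢
  have hT0 : (0 : ℝ) ≤ T := le_trans (by positivity) hT
  have hT0' : (0 : ℤ) ≤ T := by exact_mod_cast hT0
  have hl4 : ∀ k : ℕ, 1 ≤ k → k ≤ 4 * N → Real.log (k : ℝ) ^ 2 ≤ 9 * w := by
    intro k hk1 hk2
    have hk : (k : ℝ) ≤ 4 * N := by exact_mod_cast hk2
    have h5 : (k : ℝ) ≤ (N : ℝ) ^ 3 := by nlinarith [sq_nonneg ((N : ℝ) - 2)]
    have h6 := Real.log_le_log (by exact_mod_cast (by omega : 0 < k)) h5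
    rw [Real.log_pow] at h6
    have h7 := pow_le_pow_left₀ (Real.log_natCast_nonneg k) h6 2
    rw [hw]
    refine h7.trans (le_of_eq ?_)
    push_cast
    ring
  have g1 := h2 (4 * N) (by omega) m (by omega) (by omega)
  have g2 := h1 (4 * N) (by omega) (2 * m - 1) (by omega)
  have g3 := h3 (2 * m - 1) (by omega) (T : ℝ)
  have g4 := h4 (2 * m - 1) (by omega) (T : ℝ) (1 / N) (by positivity)
  have g5 := ar_le (m := m) hT0'
  have hq : ∀ B : ℝ, 0 ≤ B → q (4 * N) B ≤ Real.exp (9 * B * w) := by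
    intro B hB
    unfold q
    apply Real.exp_le_exp.2
    have := mul_le_mul_of_nonneg_left (hl4 (4 * N) (by omega) le_rfl) hB
    linarith
  have hqn : Real.exp (-(9 * K0 * w)) ≤ q (4 * N) (-K0) := by
    unfold q
    apply Real.exp_le_exp.2
    have := mul_le_mul_of_nonneg_left (hl4 (4 * N) (by omega) le_rfl) hK0
    linarith
  have hfar : dfar (2 * m - 1) T ≤
      Real.exp (9 * K1 * w + (-(mass (1 / N) * T / 2) + 4 + 9 * K2 * w)) := by
    refine g3.trans ?_
    rw [Real.exp_add]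
    apply mul_le_mul _ _ (by unfold far; positivity) (Real.exp_pos _).le
    · unfold q
      apply Real.exp_le_exp.2
      have := mul_le_mul_of_nonneg_left (hl4 (2 * m - 1) (by omega) (by omega)) hK1
      linarith
    · refine g4.trans (Real.exp_le_exp.2 ?_)
      have g6 := mul_le_mul_of_nonneg_left (hl4 (2 * m - 1) (by omega) (by omega)) hK2
      have g7 : ((2 * m - 1 : ℕ) : ℝ) * (1 / N) ≤ 4 := by
        rw [mul_one_div, div_le_iff₀ hNp]
        exact_mod_cast (by omega : 2 * m - 1 ≤ 4 * N)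
      linarith
  have hc : (c (2 * m - 1) : ℝ) ≤ mu ^ (2 * m) * Real.exp (9 * K0 * w) := by
    refine g2.trans (mul_le_mul (pow_le_pow_right₀ hmu1 (by omega)) (hq K0 hK0) (q_pos _ _).le
      (by positivity))
  have hd0 : 0 ≤ dfar (2 * m - 1) T := by unfold dfar; positivity
  have hbad : (c (2 * m - 1) : ℝ) * dfar (2 * m - 1) T ≤
      mu ^ (2 * m) * (Real.exp (-(9 * K0 * w)) * Real.exp (-1)) := by
    calc (c (2 * m - 1) : ℝ) * dfar (2 * m - 1) T
        ≤ (mu ^ (2 * m) * Real.exp (9 * K0 * w)) *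
          Real.exp (9 * K1 * w + (-(mass (1 / N) * T / 2) + 4 + 9 * K2 * w)) :=
          mul_le_mul hc hfar hd0 (by positivity)
      _ = mu ^ (2 * m) * Real.exp (9 * K0 * w +
          (9 * K1 * w + (-(mass (1 / N) * T / 2) + 4 + 9 * K2 * w))) := by
          rw [mul_assoc, ← Real.exp_add]
      _ ≤ mu ^ (2 * m) * Real.exp (-(9 * K0 * w) + -1) := by
          apply mul_le_mul_of_nonneg_left _ (by positivity)
          apply Real.exp_le_exp.2
          have g8 : 2 * (18 * K0 + 9 * K1 + 9 * K2 + 11) * w ≤ mass (1 / N) * T := by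
            rw [← mul_div_assoc, div_le_iff₀ hmass] at hT
            linarith
          nlinarith
      _ = _ := by rw [Real.exp_add]
  have he1 : Real.exp (-1) < 1 / 2 := by
    rw [Real.exp_neg, inv_lt_comm₀ (Real.exp_pos _) (by norm_num)]
    have := Real.exp_one_gt_d9
    linarith
  have hgood : mu ^ (2 * m) * Real.exp (-(9 * K0 * w)) ≤ (ar (2 * m - 1) : ℝ) :=
    (mul_le_mul_of_nonneg_left hqn (by positivity)).trans g1
  have hfin : Real.exp (-((9 * K0 + 3) * w)) ≤ Real.exp (-(9 * K0 * w)) * (1 / 2) := by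
    have g9 : Real.exp (-((9 * K0 + 3) * w)) ≤ Real.exp (-(9 * K0 * w)) * Real.exp (-1) := by
      rw [← Real.exp_add]
      apply Real.exp_le_exp.2
      nlinarith
    refine g9.trans (mul_le_mul_of_nonneg_left he1.le (Real.exp_pos _).le)
  have hE := Real.exp_pos (-(9 * K0 * w))
  have hM : 0 < mu ^ (2 * m) := by positivity
  calc mu ^ (2 * m) * Real.exp (-((9 * K0 + 3) * w))
      ≤ mu ^ (2 * m) * (Real.exp (-(9 * K0 * w)) * (1 / 2)) :=
        mul_le_mul_of_nonneg_left hfin hM.le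
    _ ≤ mu ^ (2 * m) * Real.exp (-(9 * K0 * w)) -
        mu ^ (2 * m) * (Real.exp (-(9 * K0 * w)) * Real.exp (-1)) := by
        have : mu ^ (2 * m) * (Real.exp (-(9 * K0 * w)) * Real.exp (-1)) ≤
          mu ^ (2 * m) * (Real.exp (-(9 * K0 * w)) * (1 / 2)) :=
          mul_le_mul_of_nonneg_left (mul_le_mul_of_nonneg_left he1.le hE.le) hM.le
        linarith
    _ ≤ _ := by linarith

/-- **Narrow arches: count.** -/
theorem count : ∃ C K : ℝ, 0 < C ∧ 0 ≤ K ∧ ∀ N : ℕ, 2 ≤ N → ∀ T : ℤ,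
    C * (Real.log N ^ 2 / mass (1 / N)) ≤ T → ∀ n : ℕ, N ≤ n →
      ∃ lo hi b : ℤ, lo + hi ≤ 3 * T + 1 ∧ (b : ℝ) ≤ n / N * (T + 1) ∧
      mu ^ (2 * n) * Real.exp (-(K * (n / N * Real.log N ^ 2))) ≤ ((V n lo hi b).card : ℝ) := by
  obtain ⟨C, K, hC, hK, h⟩ := A_lower
  refine ⟨C, K + 11, hC, by positivity, ?_⟩
  intro N hN T hT n hn
  have hNr : (2 : ℝ) ≤ N := by exact_mod_cast hN
  have hNp : (0 : ℝ) < N := by linarith
  have hmu := mu_pos
  have hmass : 0 < Y981.L2.mass (1 / N) := Y981.L2.mass_pos (by positivity)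
  obtain ⟨w, hw⟩ : ∃ w, w = Real.log (N : ℝ) ^ 2 := ⟨_, rfl⟩
  have hl2 := Real.log_two_gt_d9
  have hlN : Real.log 2 ≤ Real.log N := Real.log_le_log (by norm_num) hNr
  have hw0 : 12 / 25 ≤ w := by rw [hw]; nlinarith
  have hw1 : 69 / 100 * Real.log N ≤ w := by rw [hw]; nlinarith
  have hT0 : (0 : ℝ) ≤ T := le_trans (by positivity) hT
  have hA := h N hN T hT
  rw [← hw] at hA ⊢
  obtain ⟨p, hs, -, hP⟩ := exists_P (show 1 ≤ N by omega) T
  have hAN := hA N le_rfl (by omega)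
  have hP' : ((A N T).card : ℝ) ≤ (4 * N * (4 * N + 1)) * ((P N T p).card : ℝ) := by
    exact_mod_cast hP
  have hApos : (0 : ℝ) < (A N T).card := lt_of_lt_of_le (by positivity) hAN
  have hne : (P N T p).Nonempty := by
    rw [← Finset.card_pos]
    by_contra hcon
    have : (P N T p).card = 0 := by omega
    rw [this] at hP'
    simp at hP'
    have h0 : (A N T).card = 0 := by
      rw [hP']
      rfl
    rw [h0] at hApos
    simp at hApos
  obtain ⟨lo, hi, -, -, hlh, htow⟩ := tower (show 1 ≤ N by omega) hs hne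
  obtain ⟨k, hk⟩ : ∃ k, k = n / N - 1 := ⟨_, rfl⟩
  obtain ⟨m', hm'⟩ : ∃ m', m' = N + n % N := ⟨_, rfl⟩
  have hdiv : 1 ≤ n / N := (Nat.one_le_div_iff (by omega)).2 hn
  have hmod : n % N < N := Nat.mod_lt _ (by omega)
  have hnk : m' + k * N = n := by
    have h1 := Nat.div_add_mod n N
    have h2 : N * (n / N) = N * k + N := by
      have : n / N = k + 1 := by omega
      rw [this]; ring
    rw [hm', mul_comm k N]
    omega
  have hkN : ((k : ℝ) + 1) ≤ n / N := by
    rw [le_div_iff₀ hNp]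
    have : (k + 1) * N ≤ n := by
      have e : (k + 1) * N = k * N + N := by ring
      omega
    exact_mod_cast this
  have hV := htow k m' (by omega)
  rw [hnk] at hV
  refine ⟨lo, hi, (k + 1) * (T + 1), hlh, ?_, ?_⟩
  · push_cast
    exact mul_le_mul_of_nonneg_right hkN (by linarith)
  · have hV' : ((P N T p).card : ℝ) ^ k * ((A m' T).card : ℝ) ≤
        ((V n lo hi ((k + 1) * (T + 1))).card : ℝ) := by exact_mod_cast hV
    refine le_trans ?_ hV'
    have hAm := hA m' (by omega) (by omega)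
    have hpoly : (4 * (N : ℝ) * (4 * N + 1)) ≤ Real.exp (11 * w) := by
      have e1 : (4 * (N : ℝ) * (4 * N + 1)) ≤ (N : ℝ) ^ 7 := by
        have e2 : (32 : ℝ) ≤ (N : ℝ) ^ 5 := by
          have : (2 : ℝ) ^ 5 ≤ (N : ℝ) ^ 5 := pow_le_pow_left₀ (by norm_num) hNr 5
          linarith
        calc (4 * (N : ℝ) * (4 * N + 1)) ≤ 32 * (N : ℝ) ^ 2 := by nlinarith
          _ ≤ (N : ℝ) ^ 5 * (N : ℝ) ^ 2 := mul_le_mul_of_nonneg_right e2 (by positivity)
          _ = _ := by ring
      refine e1.trans ?_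
      rw [← Real.log_le_iff_le_exp (by positivity), Real.log_pow]
      push_cast
      linarith
    have hPlow : mu ^ (2 * N) * Real.exp (-((K + 11) * w)) ≤ ((P N T p).card : ℝ) := by
      have e3 : mu ^ (2 * N) * Real.exp (-(K * w)) ≤ Real.exp (11 * w) * ((P N T p).card : ℝ) :=
        hAN.trans (hP'.trans (mul_le_mul_of_nonneg_right hpoly (by positivity)))
      have e4 : mu ^ (2 * N) * Real.exp (-((K + 11) * w)) =
          (mu ^ (2 * N) * Real.exp (-(K * w))) * Real.exp (-(11 * w)) := by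
        rw [mul_assoc, ← Real.exp_add]
        congr 2
        ring
      rw [e4]
      calc (mu ^ (2 * N) * Real.exp (-(K * w))) * Real.exp (-(11 * w))
          ≤ (Real.exp (11 * w) * ((P N T p).card : ℝ)) * Real.exp (-(11 * w)) :=
            mul_le_mul_of_nonneg_right e3 (Real.exp_pos _).le
        _ = ((P N T p).card : ℝ) * (Real.exp (11 * w) * Real.exp (-(11 * w))) := by ring
        _ = _ := by rw [← Real.exp_add, add_neg_cancel, Real.exp_zero, mul_one]
    have hk0 : (0 : ℝ) ≤ k := Nat.cast_nonneg k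
    calc mu ^ (2 * n) * Real.exp (-((K + 11) * (n / N * w)))
        ≤ mu ^ (2 * n) * Real.exp (-((k * (K + 11) + K) * w)) := by
          apply mul_le_mul_of_nonneg_left _ (by positivity)
          apply Real.exp_le_exp.2
          have e5 : ((k : ℝ) + 1) * ((K + 11) * w) ≤ n / N * ((K + 11) * w) :=
            mul_le_mul_of_nonneg_right hkN (by positivity)
          nlinarith
      _ = (mu ^ (2 * N) * Real.exp (-((K + 11) * w))) ^ k *
          (mu ^ (2 * m') * Real.exp (-(K * w))) := by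
          rw [mul_pow, ← pow_mul, ← Real.exp_nat_mul]
          have e6 : 2 * n = 2 * N * k + 2 * m' := by rw [← hnk]; ring
          rw [e6, pow_add]
          have e7 : Real.exp (-((k * (K + 11) + K) * w)) =
            Real.exp (k * -((K + 11) * w)) * Real.exp (-(K * w)) := by
            rw [← Real.exp_add]
            congr 1
            ring
          rw [e7]
          ring
      _ ≤ _ := by
          apply mul_le_mul (pow_le_pow_left₀ (by positivity) hPlow k) hAm (by positivity)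
            (by positivity)

end Pool.Agent.X144.Np
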