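import Pool.Agent.X144.Np.Fin
import Pool.Agent.X144.Fi.Mean

/-!
# Narrow polygons: upper bounds
-/

set_option autoImplicit false

namespace Pool.Agent.X144.Np

open Filter Topology
open Pool.Agent.TH795.EP Pool.Agent.TH795.EP2 Pool.Agent.Y981.L2 H981

/-- the proportion of the polygons with width at most `r` -/
noncomputable def nw (n : ℕ) (r : ℝ) : ℝ :=
  ({f : ZMod (2 * n) → ℤ × ℤ | IsLoop (2 * n) f ∧ (width (2 * n) f : ℝ) ≤ r}.ncard : ℝ) /
    ({f : ZMod (2 * n) → ℤ × ℤ | IsLoop (2 * n) f}.ncard : ℝ)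

theorem box_ge {n : ℕ} (hn : 1 ≤ n) {f : ZMod (2 * n) → ℤ × ℤ} (hf : IsLoop (2 * n) f) :
    2 * n ≤ (width (2 * n) f + 1) * (width (2 * n) (swp f) + 1) := by
  classical
  have : NeZero (2 * n) := ⟨by omega⟩
  obtain ⟨i1, h1⟩ := Finite.exists_max (fun k : ZMod (2 * n) => (f k).1)
  obtain ⟨i2, h2⟩ := Finite.exists_max (fun k : ZMod (2 * n) => (f k).2)
  obtain ⟨j1, h3⟩ := Finite.exists_min (fun k : ZMod (2 * n) => (f k).1)
  obtain ⟨j2, h4⟩ := Finite.exists_min (fun k : ZMod (2 * n) => (f k).2)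
  have h5 : (Finset.univ.image f).card = 2 * n := by
    rw [Finset.card_image_of_injective _ hf.2.1, Finset.card_univ, ZMod.card]
  have h6 : Finset.univ.image f ⊆ Finset.Icc (f j1).1 (f i1).1 ×ˢ Finset.Icc (f j2).2 (f i2).2 := by
    intro p hp
    rw [Finset.mem_image] at hp
    obtain ⟨k, -, rfl⟩ := hp
    rw [Finset.mem_product, Finset.mem_Icc, Finset.mem_Icc]
    exact ⟨⟨h3 k, h1 k⟩, ⟨h4 k, h2 k⟩⟩
  have h7 := Finset.card_le_card h6
  rw [h5, Finset.card_product, Int.card_Icc, Int.card_Icc] at h7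
  refine h7.trans (Nat.mul_le_mul ?_ ?_)
  · have h8 : ((f i1).1 - (f j1).1).natAbs ≤ width (2 * n) f :=
      le_csSup (width_set hn hf) ⟨i1, j1, rfl⟩
    omega
  · have h8 : ((f i2).2 - (f j2).2).natAbs ≤ width (2 * n) (swp f) :=
      le_csSup (width_set hn (swp_loop hf)) ⟨i2, j2, rfl⟩
    omega

theorem nw_le {n : ℕ} (hn : 1 ≤ n) {r : ℝ} (hr : 0 ≤ r) : nw n r ≤ pw n (2 * n / (r + 1) - 1) := by
  unfold nw pw
  apply div_le_div_of_nonneg_right _ (Nat.cast_nonneg _)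
  have h1 : {f : ZMod (2 * n) → ℤ × ℤ | IsLoop (2 * n) f ∧ (width (2 * n) f : ℝ) ≤ r}.ncard ≤
      {f : ZMod (2 * n) → ℤ × ℤ | IsLoop (2 * n) f ∧
        2 * n / (r + 1) - 1 ≤ (width (2 * n) f : ℝ)}.ncard := by
    apply Set.ncard_le_ncard_of_injOn (fun f => swp f) _ _
      ((loops_finite hn).subset (fun f hf => hf.1))
    · rintro f ⟨hf, hw⟩
      refine ⟨swp_loop hf, ?_⟩
      have h2 := box_ge hn hf
      have h3 : (2 * n : ℝ) ≤ ((width (2 * n) f : ℝ) + 1) * ((width (2 * n) (swp f) : ℝ) + 1) := by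
        exact_mod_cast h2
      have h4 : ((width (2 * n) f : ℝ) + 1) * ((width (2 * n) (swp f) : ℝ) + 1) ≤
          (r + 1) * ((width (2 * n) (swp f) : ℝ) + 1) :=
        mul_le_mul_of_nonneg_right (by linarith) (by positivity)
      rw [sub_le_iff_le_add, div_le_iff₀ (by linarith)]
      linarith
    · intro f _ g _ h
      have := congrArg swp h
      simpa [swp_swp] using this
  exact_mod_cast h1

theorem nw_up {θ : ℝ} (h0 : 0 < θ) (h1 : θ < 1) (hR : Fi.RateUp θ) {a : ℝ} (ha : 0 < a)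
    (haθ : a < 1 - θ) {ε : ℝ} (hε : 0 < ε) :
    ∀ᶠ n : ℕ in atTop, nw n ((n : ℝ) ^ a) ≤
      Real.exp (-(n : ℝ) ^ ((1 - a - θ) / (1 - θ) - ε)) := by
  have hs : 0 < 1 - θ := by linarith
  obtain ⟨C, K, hC⟩ := Fi.cmp_pw
  obtain ⟨hU3, -⟩ := Fi.fisher_up_gen hC h0 h1
  obtain ⟨δ, hδ⟩ : ∃ δ, δ = min ((1 - a - θ) / 2) (ε * (1 - θ) / 2) := ⟨_, rfl⟩
  have hδ0 : 0 < δ := by
    rw [hδ]
    apply lt_min
    · linarith
    · positivity
  have hδ1 : δ ≤ (1 - a - θ) / 2 := by rw [hδ]; exact min_le_left _ _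
  have hδ2 : δ ≤ ε * (1 - θ) / 2 := by rw [hδ]; exact min_le_right _ _
  have h2 := hU3 hR (1 - a - δ) (by linarith) (by linarith) (ε / 2) (by linarith)
  have e3 : ∀ᶠ n : ℕ in atTop, (2 : ℝ) ≤ (n : ℝ) ^ δ :=
    ((tendsto_rpow_atTop hδ0).comp (tendsto_natCast_atTop_atTop (R := ℝ))).eventually_ge_atTop 2
  filter_upwards [h2, e3, eventually_ge_atTop 1] with n h3 h4 h5
  have hn1 : (1 : ℝ) ≤ n := by exact_mod_cast h5
  have hn0 : (0 : ℝ) < n := by linarith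
  have ha1 : 1 ≤ (n : ℝ) ^ a := Real.one_le_rpow hn1 ha.le
  have h6 : (n : ℝ) ^ (1 - a - δ) ≤ 2 * n / ((n : ℝ) ^ a + 1) - 1 := by
    have g1 : (n : ℝ) ^ (1 - a) ≤ 2 * n / ((n : ℝ) ^ a + 1) := by
      rw [le_div_iff₀ (by positivity)]
      have g2 : (n : ℝ) ^ (1 - a) * (n : ℝ) ^ a = n := by
        rw [← Real.rpow_add hn0, sub_add_cancel, Real.rpow_one]
      have g3 : (n : ℝ) ^ (1 - a) ≤ n := by
        have := Real.rpow_le_rpow_of_exponent_le hn1 (show 1 - a ≤ 1 by linarith)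
        rwa [Real.rpow_one] at this
      nlinarith
    have g4 : (n : ℝ) ^ (1 - a) = (n : ℝ) ^ (1 - a - δ) * (n : ℝ) ^ δ := by
      rw [← Real.rpow_add hn0]
      congr 1
      ring
    have g5 : 1 ≤ (n : ℝ) ^ (1 - a - δ) := Real.one_le_rpow hn1 (by linarith)
    nlinarith
  refine (nw_le (by omega) (by positivity)).trans ((pw_anti (by omega) h6).trans (h3.trans ?_))
  apply Real.exp_le_exp.2
  apply neg_le_neg
  apply Real.rpow_le_rpow_of_exponent_le hn1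
  have g6 : (1 - a - δ - θ) / (1 - θ) = (1 - a - θ) / (1 - θ) - δ / (1 - θ) := by ring
  have g7 : δ / (1 - θ) ≤ ε / 2 := by
    rw [div_le_iff₀ hs]
    linarith
  rw [g6]
  linarith

end Pool.Agent.X144.Np
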